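import Mathlib
import Pool.Agent.helper82.UM.Spec
import Pool.Agent.helper72.HZ.TWO

/-!
# Project UM, row ONE
-/

set_option autoImplicit false

namespace Pool.Agent.UM

open Matrix Polynomial Pool.Agent.GO Pool.Agent.AR Pool.Agent.RG Pool.Agent.HZ Pool.Agent.DS
  Pool.Agent.AX MeasureTheory NumberField

theorem ONE : ONE_stmt := by
  intro r n p κ _ _ _ G _ W S hp hp2 hirr hrat
  have h2 : (2 : κ) ≠ 0 := by
    intro h
    have h1 : ((2 : ℕ) : κ) = 0 := by exact_mod_cast h
    rw [CharP.cast_eq_zero_iff κ p] at h1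
    rcases (Nat.dvd_prime Nat.prime_two).1 h1 with h3 | h3
    · exact hp.one_lt.ne' h3
    · exact hp2 h3
  have hmem : ∀ g : G, g ∈ Pool.Agent.HZ.kerV W ↔ ∀ i, W i g = 1 := by
    intro g
    unfold Pool.Agent.HZ.kerV
    rw [Subgroup.mem_iInf]
    exact forall_congr' fun i => MonoidHom.mem_ker
  have hn : (Pool.Agent.HZ.kerV W).Normal := by
    refine ⟨fun a ha g => ?_⟩
    rw [hmem] at ha ⊢
    intro i
    rw [map_mul, map_mul, ha i, mul_one, ← map_mul, mul_inv_cancel, map_one]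
  refine TWO h2 S hirr (Pool.Agent.HZ.kerV W) hn fun g hg => ?_
  obtain ⟨α, β, l, l', hs, hm, hl, hl', hr⟩ := hrat g
  have hW : ∀ i, W i g = 1 := (hmem g).1 hg
  have key : ∀ y : κ, (∏ i, ((W i g).map (ZMod.castHom (dvd_refl p) κ)).charpoly).IsRoot y →
      y = 1 := by
    intro y hy
    rw [Polynomial.IsRoot.def, Polynomial.eval_prod, Finset.prod_eq_zero_iff] at hy
    obtain ⟨i, -, hi⟩ := hy
    have h3 : (W i g).map (ZMod.castHom (dvd_refl p) κ) = 1 := by
      rw [hW i]
      exact Matrix.map_one _ (map_zero _) (map_one _)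
    rw [h3, Matrix.charpoly_one, Polynomial.eval_pow, Polynomial.eval_sub, Polynomial.eval_X,
      Polynomial.eval_one] at hi
    exact sub_eq_zero.1 (eq_zero_of_pow_eq_zero hi)
  rw [key l hl, key l' hl', mul_one, mul_one] at hr
  rw [← hs, ← hm, hr]
  ring

end Pool.Agent.UM
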